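import Mathlib

/-! Pro-p presentations and 1-cyclotomic orientations. -/

namespace Pool.Agent.Helper93.Cyc

open scoped commutatorElement

noncomputable section

section completion

variable {p : ℕ} {Γ : Type} [Group Γ]

variable (p Γ) in
/-- A normal subgroup of `p`-power index of the group `Γ`. -/
structure PIdx where
  /-- the subgroup -/
  N : Subgroup Γ
  normal : N.Normal
  index : ∃ k, N.index = p ^ k

attribute [instance] PIdx.normal

/-- The map `Γ ⧸ I → Γ ⧸ J`, for `I ≤ J`. -/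
def PIdx.map (I J : PIdx p Γ) (h : I.N ≤ J.N) : Γ ⧸ I.N →* Γ ⧸ J.N :=
  QuotientGroup.map I.N J.N (MonoidHom.id Γ) h

/-- `(a_N)` is a compatible family of elements of the finite `p`-quotients `Γ ⧸ N`. -/
def IsCompat (a : ∀ I : PIdx p Γ, Γ ⧸ I.N) : Prop :=
  ∀ (I J : PIdx p Γ) (h : I.N ≤ J.N), I.map J h (a I) = a J

lemma IsCompat.one : IsCompat (1 : ∀ I : PIdx p Γ, Γ ⧸ I.N) := fun _ _ _ => map_one _

lemma IsCompat.mul {a b : ∀ I : PIdx p Γ, Γ ⧸ I.N} (ha : IsCompat a) (hb : IsCompat b) :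
    IsCompat (a * b) := fun I J h => by
  rw [Pi.mul_apply, Pi.mul_apply, map_mul, ha I J h, hb I J h]

lemma IsCompat.inv {a : ∀ I : PIdx p Γ, Γ ⧸ I.N} (ha : IsCompat a) : IsCompat a⁻¹ :=
  fun I J h => by rw [Pi.inv_apply, Pi.inv_apply, map_inv, ha I J h]

variable (p Γ) in
/-- The group of compatible families `(a_N)` in the product of the finite `p`-quotients. -/
def compat : Subgroup (∀ I : PIdx p Γ, Γ ⧸ I.N) where
  carrier := {a | IsCompat a}
  one_mem' := IsCompat.one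
  mul_mem' := IsCompat.mul
  inv_mem' := IsCompat.inv

variable (p Γ) in
/-- The pro-`p` completion of `Γ`: the inverse limit of its finite quotients of `p`-power order. -/
def ProP : Type := compat p Γ

instance : Group (ProP p Γ) := (compat p Γ).toGroup

/-- The projection of the pro-`p` completion to `Γ ⧸ N`. -/
def ProP.proj (I : PIdx p Γ) (a : ProP p Γ) : Γ ⧸ I.N := (a : compat p Γ).1 I

/-- The topology of the inverse limit of the discrete groups `Γ ⧸ N`. -/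
instance : TopologicalSpace (ProP p Γ) :=
  ⨅ I : PIdx p Γ, TopologicalSpace.induced (ProP.proj I) ⊥

/-- The constant family of an element of `Γ`. -/
def constFam (g : Γ) (I : PIdx p Γ) : Γ ⧸ I.N := g

lemma isCompat_constFam (g : Γ) : IsCompat (constFam (p := p) g) := fun _ _ _ => rfl

variable (p) in
/-- The canonical map from `Γ` to its pro-`p` completion. -/
def ProP.of (g : Γ) : ProP p Γ := ⟨constFam g, isCompat_constFam g⟩

end completion

/-- The free pro-`p` group on `X` (for finite `X`): the pro-`p` completion of the free group. -/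
abbrev FreeProP (p : ℕ) (X : Type) : Type := ProP p (FreeGroup X)

/-- The closed normal subgroup generated by `R`. -/
def closedNormalClosure {Γ : Type} [Group Γ] [TopologicalSpace Γ] (R : Set Γ) : Subgroup Γ :=
  sInf {N : Subgroup Γ | N.Normal ∧ IsClosed (N : Set Γ) ∧ R ⊆ N}

instance closedNormalClosure_normal {Γ : Type} [Group Γ] [TopologicalSpace Γ] (R : Set Γ) :
    (closedNormalClosure R).Normal where
  conj_mem n hn g := by
    unfold closedNormalClosure at hn ⊢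
    rw [Subgroup.mem_sInf] at hn ⊢
    exact fun N hN => hN.1.conj_mem n (hn N hN) g

/-- The free pro-`p` generator `x_i`. -/
def fx (p d : ℕ) (i : Fin d) : FreeProP p (Fin d ⊕ Fin d) := ProP.of p (FreeGroup.of (Sum.inl i))

/-- The free pro-`p` generator `y_i`. -/
def fy (p d : ℕ) (i : Fin d) : FreeProP p (Fin d ⊕ Fin d) := ProP.of p (FreeGroup.of (Sum.inr i))

/-- The relators `[x_i, y_i] [x_{i+1}, y_{i+1}]⁻¹`. -/
def relators (p d : ℕ) : Set (FreeProP p (Fin d ⊕ Fin d)) :=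
  {r | ∃ i j : Fin d, j.val = i.val + 1 ∧
    r = ⁅fx p d i, fy p d i⁆ * ⁅fx p d j, fy p d j⁆⁻¹}

/-- The pro-`p` group on generators `x_i, y_i` (`i < d`) with relations
`[x_i, y_i] = [x_{i+1}, y_{i+1}]`. -/
abbrev ChainGroup (p d : ℕ) : Type :=
  FreeProP p (Fin d ⊕ Fin d) ⧸ closedNormalClosure (relators p d)

section cohomology

variable {p : ℕ} [Fact p.Prime] {Γ : Type} [Group Γ] [TopologicalSpace Γ]

omit [TopologicalSpace Γ] in
/-- The reduction modulo `p^n` of an orientation `θ`. -/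
def thetaMod (θ : Γ →* ℤ_[p]ˣ) (n : ℕ) (g : Γ) : ZMod (p ^ n) :=
  PadicInt.toZModPow n (θ g : ℤ_[p])

omit [TopologicalSpace Γ] in
lemma thetaMod_mul (θ : Γ →* ℤ_[p]ˣ) (n : ℕ) (g h : Γ) :
    thetaMod θ n (g * h) = thetaMod θ n g * thetaMod θ n h := by
  simp [thetaMod]

/-- `c` is a continuous 1-cocycle of `Γ` with values in `ℤ_p(1)/p^n`, that is, in `ℤ/p^n` with `g`
acting as multiplication by `θ(g)`. -/
def IsCocycle (θ : Γ →* ℤ_[p]ˣ) (n : ℕ) (c : Γ → ZMod (p ^ n)) : Prop :=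
  IsLocallyConstant c ∧ ∀ g h, c (g * h) = c g + thetaMod θ n g * c h

omit [TopologicalSpace Γ] in
/-- `c'` is `c` plus a coboundary `g ↦ g • a - a`. -/
def Cohomologous (θ : Γ →* ℤ_[p]ˣ) (n : ℕ) (c c' : Γ → ZMod (p ^ n)) : Prop :=
  ∃ a, ∀ g, c' g = c g + (thetaMod θ n g * a - a)

/-- The continuous 1-cocycles of `Γ` with values in `ℤ_p(1)/p^n`. -/
def Z1 (θ : Γ →* ℤ_[p]ˣ) (n : ℕ) : Type := {c : Γ → ZMod (p ^ n) // IsCocycle θ n c}

/-- `H^1(Γ, ℤ_p(1)/p^n)`: the classes of continuous 1-cocycles modulo coboundaries. -/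
def H1 (θ : Γ →* ℤ_[p]ˣ) (n : ℕ) : Type := Quot fun c c' : Z1 θ n => Cohomologous θ n c.1 c'.1

/-- Reduction modulo `p`, from `ℤ/p^n` to `ℤ/p`, for `n ≥ 1`. -/
def red (p : ℕ) {n : ℕ} (hn : 1 ≤ n) : ZMod (p ^ n) →+* ZMod (p ^ 1) :=
  ZMod.castHom (pow_dvd_pow p hn) _

omit [TopologicalSpace Γ] in
lemma red_thetaMod (θ : Γ →* ℤ_[p]ˣ) {n : ℕ} (hn : 1 ≤ n) (g : Γ) :
    red p hn (thetaMod θ n g) = thetaMod θ 1 g := by
  unfold red thetaMod
  exact PadicInt.cast_toZModPow 1 n hn _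

omit [Fact p.Prime] [Group Γ] [TopologicalSpace Γ] in
/-- Reduction modulo `p` of functions. -/
def redFun {n : ℕ} (hn : 1 ≤ n) (c : Γ → ZMod (p ^ n)) (g : Γ) : ZMod (p ^ 1) := red p hn (c g)

lemma isCocycle_redFun {θ : Γ →* ℤ_[p]ˣ} {n : ℕ} (hn : 1 ≤ n) {c : Γ → ZMod (p ^ n)}
    (hc : IsCocycle θ n c) : IsCocycle θ 1 (redFun hn c) :=
  ⟨hc.1.comp _, fun g h => by
    unfold redFun
    rw [hc.2, map_add, map_mul, red_thetaMod]⟩

omit [TopologicalSpace Γ] in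
lemma cohomologous_redFun {θ : Γ →* ℤ_[p]ˣ} {n : ℕ} (hn : 1 ≤ n) {c c' : Γ → ZMod (p ^ n)}
    (h : Cohomologous θ n c c') : Cohomologous θ 1 (redFun hn c) (redFun hn c') := by
  obtain ⟨a, ha⟩ := h
  refine ⟨red p hn a, fun g => ?_⟩
  unfold redFun
  rw [ha, map_add, map_sub, map_mul, red_thetaMod]

/-- Reduction modulo `p` of cocycles. -/
def redZ1 (θ : Γ →* ℤ_[p]ˣ) {n : ℕ} (hn : 1 ≤ n) (c : Z1 θ n) : Z1 θ 1 :=
  ⟨redFun hn c.1, isCocycle_redFun hn c.2⟩

/-- The map `H^1(Γ, ℤ_p(1)/p^n) → H^1(Γ, ℤ_p(1)/p)` induced by reduction modulo `p`. -/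
def redH1 (θ : Γ →* ℤ_[p]ˣ) {n : ℕ} (hn : 1 ≤ n) : H1 θ n → H1 θ 1 :=
  Quot.map (redZ1 θ hn) fun _ _ => cohomologous_redFun hn

omit [TopologicalSpace Γ] in
/-- The restriction of an orientation to a subgroup. -/
def resTheta (θ : Γ →* ℤ_[p]ˣ) (U : Subgroup Γ) : U →* ℤ_[p]ˣ := θ.comp U.subtype

/-- The pair `(Γ, θ)` is 1-cyclotomic. -/
def IsOneCyclotomicPair (θ : Γ →* ℤ_[p]ˣ) : Prop :=
  ∀ U : Subgroup Γ, IsOpen (U : Set Γ) → ∀ (n : ℕ) (hn : 1 ≤ n),
    Function.Surjective (redH1 (resTheta θ U) hn)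

variable (p Γ) in
/-- `Γ` is 1-cyclotomic: there is an orientation (a continuous homomorphism `θ : Γ → ℤ_pˣ`) such
that `(Γ, θ)` is 1-cyclotomic. -/
def IsOneCyclotomic : Prop := ∃ θ : Γ →* ℤ_[p]ˣ, Continuous θ ∧ IsOneCyclotomicPair θ

end cohomology

end

end Pool.Agent.Helper93.Cyc
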