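import Mathlib
import Pool.Agent.Helper93.Cyc.Defs

/-! Basic properties of the pro-p group: finite quotients and powers. -/

open scoped commutatorElement
open Filter Topology

namespace Pool.Agent.Helper93.Cyc

noncomputable section

section general

variable {p : ℕ} {Γ : Type} [Group Γ]

/-- the projection as a homomorphism -/
def ProP.projHom (I : PIdx p Γ) : ProP p Γ →* Γ ⧸ I.N where
  toFun := ProP.proj I
  map_one' := rfl
  map_mul' _ _ := rfl

/-- the canonical map as a homomorphism -/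
def ProP.ofHom (p : ℕ) (Γ : Type) [Group Γ] : Γ →* ProP p Γ where
  toFun := ProP.of p
  map_one' := rfl
  map_mul' _ _ := rfl

lemma ProP.isLocallyConstant_proj (I : PIdx p Γ) : IsLocallyConstant (ProP.proj I) := by
  intro s
  have h : (⨅ J : PIdx p Γ, TopologicalSpace.induced (ProP.proj J) ⊥) ≤
    TopologicalSpace.induced (ProP.proj I) ⊥ := iInf_le _ I
  exact h _ ⟨s, trivial, rfl⟩

lemma ProP.exists_lift (hp : p.Prime) {Q : Type} [Group Q] (hQ : ∃ k, Nat.card Q = p ^ k)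
    (f : Γ →* Q) :
    ∃ F : ProP p Γ →* Q, IsLocallyConstant F ∧ ∀ g, F (ProP.ofHom p Γ g) = f g := by
  obtain ⟨k, hk⟩ := hQ
  have hidx : ∃ m, f.ker.index = p ^ m := by
    rw [Subgroup.index_ker]
    have h := Subgroup.card_subgroup_dvd_card f.range
    rw [hk] at h
    obtain ⟨m, -, hm⟩ := (Nat.dvd_prime_pow hp).1 h
    exact ⟨m, hm⟩
  let I : PIdx p Γ := ⟨f.ker, inferInstance, hidx⟩
  refine ⟨(QuotientGroup.kerLift f).comp (ProP.projHom I), ?_, fun g => rfl⟩
  exact (ProP.isLocallyConstant_proj I).comp _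

lemma tendsto_pow_aux (I : PIdx p Γ) (g : ProP p Γ) :
    Tendsto (ProP.proj I ∘ fun k : ℕ => g ^ (p ^ k)) atTop
      (@nhds (Γ ⧸ I.N) ⊥ (ProP.proj I 1)) := by
  obtain ⟨m, hm⟩ := I.index
  have h : ∀ k ≥ m, (ProP.proj I ∘ fun k : ℕ => g ^ (p ^ k)) k = ProP.proj I 1 := by
    intro k hk
    show ProP.projHom I (g ^ (p ^ k)) = ProP.projHom I 1
    rw [map_pow, map_one]
    have h1 : Nat.card (Γ ⧸ I.N) = p ^ m := hm
    obtain ⟨l, rfl⟩ := Nat.exists_eq_add_of_le hk
    rw [pow_add, pow_mul, ← h1, pow_card_eq_one', one_pow]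
  let _ : TopologicalSpace (Γ ⧸ I.N) := ⊥
  refine Tendsto.congr' ?_ tendsto_const_nhds
  filter_upwards [eventually_ge_atTop m] with k hk
  exact (h k hk).symm

lemma ProP.tendsto_pow (g : ProP p Γ) : Tendsto (fun k : ℕ => g ^ (p ^ k)) atTop (𝓝 1) := by
  rw [nhds_iInf, tendsto_iInf]
  intro I
  rw [@nhds_induced _ _ ⊥, tendsto_comap_iff]
  exact tendsto_pow_aux I g

end general

variable {p d : ℕ}

/-- the map from the free group -/
def iota (p d : ℕ) : FreeGroup (Fin d ⊕ Fin d) →* ChainGroup p d :=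
  (QuotientGroup.mk' _).comp (ProP.ofHom p _)

lemma iota_rel {i j : Fin d} (h : j.val = i.val + 1) :
    ⁅iota p d (FreeGroup.of (Sum.inl i)), iota p d (FreeGroup.of (Sum.inr i))⁆ =
      ⁅iota p d (FreeGroup.of (Sum.inl j)), iota p d (FreeGroup.of (Sum.inr j))⁆ := by
  rw [← mul_inv_eq_one]
  have h1 : ⁅fx p d i, fy p d i⁆ * ⁅fx p d j, fy p d j⁆⁻¹ ∈ closedNormalClosure (relators p d) := by
    unfold closedNormalClosure
    rw [Subgroup.mem_sInf]
    exact fun N hN => hN.2.2 ⟨i, j, h, rfl⟩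
  exact (QuotientGroup.eq_one_iff _).2 h1

lemma iota_rel' (hd : 0 < d) (i : Fin d) :
    ⁅iota p d (FreeGroup.of (Sum.inl i)), iota p d (FreeGroup.of (Sum.inr i))⁆ =
      ⁅iota p d (FreeGroup.of (Sum.inl ⟨0, hd⟩)), iota p d (FreeGroup.of (Sum.inr ⟨0, hd⟩))⁆ := by
  obtain ⟨k, hk⟩ := i
  induction k with
  | zero => rfl
  | succ k ih =>
    rw [← iota_rel (p := p) (i := ⟨k, by omega⟩) (j := ⟨k + 1, hk⟩) rfl]
    exact ih _

lemma exists_lift_chain (hp : p.Prime) {Q : Type} [Group Q] (hQ : ∃ k, Nat.card Q = p ^ k)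
    (f : FreeGroup (Fin d ⊕ Fin d) →* Q) (z : Q)
    (hf : ∀ i, ⁅f (FreeGroup.of (Sum.inl i)), f (FreeGroup.of (Sum.inr i))⁆ = z) :
    ∃ F : ChainGroup p d →* Q, IsLocallyConstant F ∧ ∀ g, F (iota p d g) = f g := by
  obtain ⟨F, hF, hFf⟩ := ProP.exists_lift hp hQ f
  have hker : closedNormalClosure (relators p d) ≤ F.ker := by
    refine sInf_le ⟨inferInstance, ?_, ?_⟩
    · have : (F.ker : Set (FreeProP p (Fin d ⊕ Fin d))) = F ⁻¹' {1} := rfl
      rw [this]
      exact hF.isClosed_fiber 1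
    · rintro _ ⟨i, j, -, rfl⟩
      show F _ = 1
      rw [map_mul, map_inv, map_commutatorElement, map_commutatorElement]
      have h1 : ∀ i, F (fx p d i) = f (FreeGroup.of (Sum.inl i)) := fun i => hFf _
      have h2 : ∀ i, F (fy p d i) = f (FreeGroup.of (Sum.inr i)) := fun i => hFf _
      rw [h1, h1, h2, h2, hf, hf, mul_inv_cancel]
  refine ⟨QuotientGroup.lift _ F hker, ?_, fun g => hFf g⟩
  intro s
  exact hF s

lemma chain_tendsto_pow (g : ChainGroup p d) :
    Tendsto (fun k : ℕ => g ^ (p ^ k)) atTop (𝓝 1) := by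
  obtain ⟨g, rfl⟩ := QuotientGroup.mk_surjective g
  have h : Continuous (QuotientGroup.mk : FreeProP p (Fin d ⊕ Fin d) → ChainGroup p d) :=
    continuous_quot_mk
  exact (h.tendsto 1).comp (ProP.tendsto_pow g)

lemma thetaMod_one [Fact p.Prime] {θ : ChainGroup p d →* ℤ_[p]ˣ} (hθ : Continuous θ)
    (g : ChainGroup p d) : thetaMod θ 1 g = 1 := by
  have h1 : Tendsto (fun k : ℕ => ((θ g : ℤ_[p]) ^ (p ^ k))) atTop (𝓝 1) := by
    have h2 := ((Units.continuous_val.comp hθ).tendsto 1).comp (chain_tendsto_pow g)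
    simpa [Function.comp_def] using h2
  have h3 := (h1.eventually (Metric.ball_mem_nhds 1 zero_lt_one)).exists
  obtain ⟨k, hk⟩ := h3
  rw [dist_eq_norm] at hk
  have h4 : (θ g : ℤ_[p]) ^ (p ^ k) - 1 ∈ RingHom.ker (PadicInt.toZModPow (p := p) 1) := by
    rw [PadicInt.ker_toZModPow, pow_one, ← PadicInt.maximalIdeal_eq_span_p]
    exact (IsLocalRing.mem_maximalIdeal _).2 (PadicInt.mem_nonunits.2 hk)
  rw [RingHom.mem_ker, map_sub, map_pow, map_one, sub_eq_zero] at h4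
  have : Fact (Nat.Prime (p ^ 1)) := by rw [pow_one]; infer_instance
  have h5 := ZMod.pow_card_pow (p := p ^ 1) (n := k) (thetaMod θ 1 g)
  rw [← h5]
  have h6 : (p ^ 1) ^ k = p ^ k := by rw [pow_one]
  rw [h6]
  exact h4

end

end Pool.Agent.Helper93.Cyc
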