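import Mathlib
import Pool.Agent.Helper93.Cyc.Props

/-! Lifting cocycles; the orientation must be trivial on the generators. -/

open scoped commutatorElement
open Filter Topology

namespace Pool.Agent.Helper93.Cyc

noncomputable section

variable {p : ℕ} [Fact p.Prime]

lemma exists_lift_cocycle {Γ : Type} [Group Γ] [TopologicalSpace Γ] (θ : Γ →* ℤ_[p]ˣ)
    (h1 : ∀ g, thetaMod θ 1 g = 1) {n : ℕ} (hn : 1 ≤ n)
    (hs : Function.Surjective (redH1 θ hn)) (c : Z1 θ 1) :
    ∃ C : Z1 θ n, ∀ g, red p hn (C.1 g) = c.1 g := by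
  obtain ⟨x, hx⟩ := hs (Quot.mk _ c)
  obtain ⟨C, rfl⟩ := Quot.exists_rep x
  have h2 : Relation.EqvGen (fun c c' : Z1 θ 1 => Cohomologous θ 1 c.1 c'.1) (redZ1 θ hn C) c :=
    Quot.eqvGen_exact hx
  have h3 : ∀ c c' : Z1 θ 1, Relation.EqvGen (fun c c' : Z1 θ 1 => Cohomologous θ 1 c.1 c'.1) c c' →
      c.1 = c'.1 := by
    intro c c' h
    induction h with
    | rel c c' h =>
      obtain ⟨a, ha⟩ := h
      funext g
      rw [ha g, h1, one_mul, sub_self, add_zero]
    | refl c => rfl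
    | symm c c' _ ih => exact ih.symm
    | trans a b c _ _ ih ih' => exact ih.trans ih'
  exact ⟨C, fun g => congrFun (h3 _ _ h2) g⟩

lemma isUnit_of_red {n : ℕ} (hn : 1 ≤ n) {B : ZMod (p ^ n)} (h : red p hn B ≠ 0) : IsUnit B := by
  have hp : p.Prime := Fact.out
  have : NeZero (p ^ n) := ⟨pow_ne_zero _ hp.ne_zero⟩
  have h1 : B = (B.val : ZMod (p ^ n)) := (ZMod.natCast_zmod_val B).symm
  rw [h1] at h ⊢
  rw [map_natCast] at h
  rw [ZMod.isUnit_iff_coprime]
  apply Nat.Coprime.pow_right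
  rw [Nat.coprime_comm]
  rw [hp.coprime_iff_not_dvd]
  intro hd
  apply h
  rw [ZMod.natCast_eq_zero_iff, pow_one]
  exact hd

/-- the value of a cocycle on a commutator -/
lemma cocycle_commutator {R Γ : Type} [CommRing R] [Group Γ] (t : Γ →* R) (c : Γ → R)
    (hc : ∀ g h, c (g * h) = c g + t g * c h) (g h : Γ) :
    c ⁅g, h⁆ = (1 - t h) * c g - (1 - t g) * c h := by
  have h1 : ⁅g, h⁆ * (h * g) = g * h := by
    rw [commutatorElement_def]; group
  have h2 : t ⁅g, h⁆ = 1 := by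
    have h3 : t ⁅g, h⁆ * (t h * t g) = t h * t g := by
      rw [← map_mul, ← map_mul, h1, map_mul, map_mul, mul_comm]
    have h4 : t (h * g) * t ((h * g)⁻¹) = 1 := by rw [← map_mul, mul_inv_cancel, map_one]
    calc t ⁅g, h⁆ = t ⁅g, h⁆ * (t h * t g) * t ((h * g)⁻¹) := by
          rw [mul_assoc, ← map_mul t h g, h4, mul_one]
      _ = 1 := by rw [h3, ← map_mul t h g, h4]
  have h5 := hc ⁅g, h⁆ (h * g)
  rw [h1, h2, one_mul, hc, hc] at h5
  linear_combination -h5

variable {d : ℕ}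

/-- the partner of a generator -/
def partner : Fin d ⊕ Fin d → Fin d ⊕ Fin d := Sum.swap

/-- `θ mod p^n` as a monoid homomorphism -/
def thetaHom {Γ : Type} [Group Γ] (θ : Γ →* ℤ_[p]ˣ) (n : ℕ) : Γ →* ZMod (p ^ n) where
  toFun := thetaMod θ n
  map_one' := by simp [thetaMod]
  map_mul' := thetaMod_mul θ n

theorem theta_generator (hd : 2 ≤ d) {θ : ChainGroup p d →* ℤ_[p]ˣ} (hθ : Continuous θ)
    (hc : IsOneCyclotomicPair θ) (s : Fin d ⊕ Fin d) : θ (iota p d (FreeGroup.of s)) = 1 := by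
  have hp : p.Prime := Fact.out
  by_contra hne
  set t : Fin d ⊕ Fin d → ℤ_[p] := fun s => 1 - θ (iota p d (FreeGroup.of s)) with ht
  have : Nonempty (Fin d ⊕ Fin d) := ⟨s⟩
  obtain ⟨s₀, hs₀⟩ := Finite.exists_max fun s => ‖t s‖
  have ht0 : t s₀ ≠ 0 := by
    intro h0
    have h1 := hs₀ s
    rw [h0, norm_zero] at h1
    have h2 : t s = 0 := norm_le_zero_iff.1 h1
    exact hne (Units.ext (sub_eq_zero.1 h2).symm)
  have hdvd : ∀ s, ∃ a, t s = t s₀ * a := by
    intro s
    have h0 : (t s₀ : ℚ_[p]) ≠ 0 := fun h => ht0 (Subtype.ext h)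
    refine ⟨⟨(t s : ℚ_[p]) / (t s₀ : ℚ_[p]), ?_⟩, ?_⟩
    · rw [norm_div]
      exact div_le_one_of_le₀ (hs₀ s) (norm_nonneg _)
    · apply Subtype.ext
      rw [PadicInt.coe_mul]
      field_simp
  choose a ha using hdvd
  obtain ⟨n, hn⟩ : ∃ n, PadicInt.toZModPow n (t s₀) ≠ 0 := by
    by_contra hcon
    push Not at hcon
    exact ht0 (PadicInt.ext_of_toZModPow.1 fun n => by rw [hcon n, map_zero])
  have hn1 : 1 ≤ n := by
    rcases Nat.eq_zero_or_pos n with rfl | h
    · exact absurd (Subsingleton.elim (α := ZMod 1) _ _) hn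
    · exact h
  -- a cocycle modulo p
  let f : FreeGroup (Fin d ⊕ Fin d) →* Multiplicative (ZMod (p ^ 1)) :=
    FreeGroup.lift fun s => Multiplicative.ofAdd (if s = partner s₀ then 1 else 0)
  have hcard : ∃ k, Nat.card (Multiplicative (ZMod (p ^ 1))) = p ^ k :=
    ⟨1, by rw [Nat.card_congr Multiplicative.toAdd, Nat.card_zmod]⟩
  obtain ⟨F, hF, hFf⟩ := exists_lift_chain (d := d) hp hcard f 1 (fun i => by
    rw [commutatorElement_def, mul_comm (f _) (f _), mul_assoc (f _), mul_inv_cancel, mul_one,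
      mul_inv_cancel])
  have hθ1 : ∀ g, thetaMod θ 1 g = 1 := thetaMod_one hθ
  let c : Z1 (resTheta θ (⊤ : Subgroup (ChainGroup p d))) 1 :=
    ⟨fun g => Multiplicative.toAdd (F g.1), (hF.comp_continuous continuous_subtype_val).comp _, by
      intro g h
      have h1 : thetaMod (resTheta θ (⊤ : Subgroup (ChainGroup p d))) 1 g = 1 := hθ1 g.1
      rw [h1, one_mul]
      show Multiplicative.toAdd (F (g.1 * h.1)) = _
      rw [map_mul]
      rfl⟩
  obtain ⟨C, hC⟩ := exists_lift_cocycle (resTheta θ (⊤ : Subgroup (ChainGroup p d)))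
    (fun g => hθ1 g.1) hn1 (hc ⊤ isOpen_univ n hn1) c
  let io : FreeGroup (Fin d ⊕ Fin d) → (⊤ : Subgroup (ChainGroup p d)) := fun g => ⟨iota p d g, trivial⟩
  have hCs : ∀ s, red p hn1 (C.1 (io (FreeGroup.of s))) = if s = partner s₀ then 1 else 0 := by
    intro s
    rw [hC]
    show Multiplicative.toAdd (F (iota p d (FreeGroup.of s))) = _
    rw [hFf]
    simp [f]
  -- the relation
  have hrel : ∀ i, C.1 (⁅io (FreeGroup.of (Sum.inl i)), io (FreeGroup.of (Sum.inr i))⁆) =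
      C.1 (⁅io (FreeGroup.of (Sum.inl ⟨0, by omega⟩)), io (FreeGroup.of (Sum.inr ⟨0, by omega⟩))⁆) := by
    intro i
    refine congrArg C.1 ?_
    apply Subtype.ext
    exact iota_rel' (by omega) i
  have hval : ∀ i, C.1 (⁅io (FreeGroup.of (Sum.inl i)), io (FreeGroup.of (Sum.inr i))⁆) =
      PadicInt.toZModPow n (t s₀) *
      (PadicInt.toZModPow n (a (Sum.inr i)) * C.1 (io (FreeGroup.of (Sum.inl i))) -
        PadicInt.toZModPow n (a (Sum.inl i)) * C.1 (io (FreeGroup.of (Sum.inr i)))) := by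
    intro i
    have h1 := cocycle_commutator (thetaHom (resTheta θ (⊤ : Subgroup (ChainGroup p d))) n) C.1
      C.2.2 (io (FreeGroup.of (Sum.inl i))) (io (FreeGroup.of (Sum.inr i)))
    have h2 : ∀ s, 1 - thetaHom (resTheta θ (⊤ : Subgroup (ChainGroup p d))) n
        (io (FreeGroup.of s)) = PadicInt.toZModPow n (t s₀) * PadicInt.toZModPow n (a s) := by
      intro s
      rw [← map_mul, ← ha s, ht]
      show _ = PadicInt.toZModPow n (1 - (θ (iota p d (FreeGroup.of s)) : ℤ_[p]))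
      rw [map_sub, map_one]
      rfl
    rw [h1, h2, h2]
    ring
  have ha0 : a s₀ = 1 := by
    have h1 := ha s₀
    exact (mul_left_cancel₀ ht0 (by rw [mul_one]; exact h1)).symm
  have hfin : ∀ i j : Fin d, i ≠ j → (s₀ = Sum.inl i ∨ s₀ = Sum.inr i) → False := by
    intro i j hij hs
    have h1 := (hrel i).trans (hrel j).symm
    rw [hval, hval, ← sub_eq_zero, ← mul_sub] at h1
    have h2 : IsUnit ((PadicInt.toZModPow n (a (Sum.inr i)) * C.1 (io (FreeGroup.of (Sum.inl i))) -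
        PadicInt.toZModPow n (a (Sum.inl i)) * C.1 (io (FreeGroup.of (Sum.inr i)))) -
        (PadicInt.toZModPow n (a (Sum.inr j)) * C.1 (io (FreeGroup.of (Sum.inl j))) -
        PadicInt.toZModPow n (a (Sum.inl j)) * C.1 (io (FreeGroup.of (Sum.inr j))))) := by
      apply isUnit_of_red hn1
      have : Fact (Nat.Prime (p ^ 1)) := by rw [pow_one]; infer_instance
      simp only [map_sub, map_mul, hCs]
      rcases hs with rfl | rfl
      · have hji : ¬ j = i := fun h => hij h.symm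
        simp [partner, ha0, hji]
      · have hji : ¬ j = i := fun h => hij h.symm
        simp [partner, ha0, hji]
    exact hn (h2.mul_left_eq_zero.1 h1)
  rcases s₀ with i | i
  · obtain ⟨j, hj⟩ : ∃ j : Fin d, i ≠ j := by
      by_cases h : i.val = 0
      · exact ⟨⟨1, by omega⟩, fun h' => by rw [h'] at h; simp at h⟩
      · exact ⟨⟨0, by omega⟩, fun h' => h (by rw [h'])⟩
    exact hfin i j hj (Or.inl rfl)
  · obtain ⟨j, hj⟩ : ∃ j : Fin d, i ≠ j := by
      by_cases h : i.val = 0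
      · exact ⟨⟨1, by omega⟩, fun h' => by rw [h'] at h; simp at h⟩
      · exact ⟨⟨0, by omega⟩, fun h' => h (by rw [h'])⟩
    exact hfin i j hj (Or.inr rfl)

end

end Pool.Agent.Helper93.Cyc
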