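import Mathlib
import Pool.Agent.Helper93.Cyc.Step1

/-! Line sums and the obstruction. -/

open scoped commutatorElement

namespace Pool.Agent.Helper93.Cyc

noncomputable section

section comb

variable {p : ℕ} {M : Type} [AddCommGroup M] (ψ : ZMod p × ZMod p → M)

/-- triangle sum -/
def tri (q : ZMod p × ZMod p) : M :=
  ∑ j ∈ Finset.range p, ∑ i ∈ Finset.range j, ψ (q + ((i : ZMod p), (j : ZMod p)))

lemma tri_shift (h2 : ∀ q, ∑ t ∈ Finset.range p, ψ (q + (0, (t : ZMod p))) = 0)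
    (h3 : ∀ q, ∑ t ∈ Finset.range p, ψ (q + ((t : ZMod p), (t : ZMod p))) = 0)
    (q : ZMod p × ZMod p) : tri ψ (q + (1, 0)) = tri ψ q := by
  rw [← sub_eq_zero]
  unfold tri
  rw [← Finset.sum_sub_distrib]
  have h : ∀ j : ℕ, ∑ i ∈ Finset.range j, ψ (q + (1, 0) + ((i : ZMod p), (j : ZMod p))) -
      ∑ i ∈ Finset.range j, ψ (q + ((i : ZMod p), (j : ZMod p))) =
      ψ (q + ((j : ZMod p), (j : ZMod p))) - ψ (q + (0, (j : ZMod p))) := by
    intro j
    rw [← Finset.sum_sub_distrib]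
    have h4 := Finset.sum_range_sub (fun i : ℕ => ψ (q + ((i : ZMod p), (j : ZMod p)))) j
    rw [Nat.cast_zero] at h4
    rw [← h4]
    refine Finset.sum_congr rfl fun i _ => ?_
    congr 2
    rw [add_assoc]
    congr 1
    ext
    · simp [add_comm]
    · simp
  rw [Finset.sum_congr rfl fun j _ => h j, Finset.sum_sub_distrib, h2, h3, sub_zero]

lemma tri_shift' (h2 : ∀ q, ∑ t ∈ Finset.range p, ψ (q + (0, (t : ZMod p))) = 0)
    (h3 : ∀ q, ∑ t ∈ Finset.range p, ψ (q + ((t : ZMod p), (t : ZMod p))) = 0)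
    (q : ZMod p × ZMod p) (s : ℕ) : tri ψ (q + ((s : ZMod p), 0)) = tri ψ q := by
  induction s with
  | zero =>
    congr 1
    ext <;> simp
  | succ s ih =>
    rw [← ih, ← tri_shift ψ h2 h3 (q + ((s : ZMod p), 0))]
    congr 1
    rw [add_assoc]
    congr 1
    ext <;> simp

lemma smul_tri (h1 : ∀ q, ∑ t ∈ Finset.range p, ψ (q + ((t : ZMod p), 0)) = 0)
    (h2 : ∀ q, ∑ t ∈ Finset.range p, ψ (q + (0, (t : ZMod p))) = 0)
    (h3 : ∀ q, ∑ t ∈ Finset.range p, ψ (q + ((t : ZMod p), (t : ZMod p))) = 0)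
    (q : ZMod p × ZMod p) : p • tri ψ q = 0 := by
  have h4 : p • tri ψ q = ∑ s ∈ Finset.range p, tri ψ (q + ((s : ZMod p), 0)) := by
    rw [Finset.sum_congr rfl fun s _ => tri_shift' ψ h2 h3 q s]
    simp
  rw [h4]
  unfold tri
  rw [Finset.sum_comm]
  refine Finset.sum_eq_zero fun j _ => ?_
  rw [Finset.sum_comm]
  refine Finset.sum_eq_zero fun i _ => ?_
  rw [← h1 (q + ((i : ZMod p), (j : ZMod p)))]
  refine Finset.sum_congr rfl fun s _ => ?_
  rw [add_right_comm]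

end comb

section key

variable {p : ℕ} {Γ : Type} [Group Γ] (q : Γ →* Multiplicative (ZMod p × ZMod p))
  {M : Type} [AddCommGroup M] (χ : q.ker →* Multiplicative M)

/-- the value of `χ` at `g z g⁻¹` -/
def conjVal {z : Γ} (hz : q z = 1) (g : Γ) : M :=
  Multiplicative.toAdd (χ ⟨g * z * g⁻¹, by rw [MonoidHom.mem_ker, map_mul, map_mul, hz, mul_one,
    map_inv, mul_inv_cancel]⟩)

lemma conjVal_eq {z : Γ} (hz : q z = 1) {g h : Γ} (hgh : q g = q h) :
    conjVal q χ hz g = conjVal q χ hz h := by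
  unfold conjVal
  congr 1
  have hu : q (h⁻¹ * g) = 1 := by rw [map_mul, map_inv, hgh, inv_mul_cancel]
  have hu' : g * h⁻¹ ∈ q.ker := by rw [MonoidHom.mem_ker, map_mul, map_inv, hgh, mul_inv_cancel]
  have hm : h * z * h⁻¹ ∈ q.ker := by
    rw [MonoidHom.mem_ker, map_mul, map_mul, hz, mul_one, map_inv, mul_inv_cancel]
  have h1 : (⟨g * z * g⁻¹, by rw [MonoidHom.mem_ker, map_mul, map_mul, hz, mul_one,
    map_inv, mul_inv_cancel]⟩ : q.ker) = ⟨g * h⁻¹, hu'⟩ * ⟨h * z * h⁻¹, hm⟩ * ⟨g * h⁻¹, hu'⟩⁻¹ := by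
    apply Subtype.ext
    show g * z * g⁻¹ = (g * h⁻¹) * (h * z * h⁻¹) * (g * h⁻¹)⁻¹
    group
  rw [h1, map_mul, map_mul, map_inv, mul_comm (χ _) (χ _), mul_assoc, mul_inv_cancel, mul_one]

lemma conjVal_pow {x y : Γ} (hxy : q ⁅x, y⁆ = 1) (g : Γ) (k : ℕ) (hk : q ⁅x ^ k, y⁆ = 1) :
    conjVal q χ hk g = ∑ t ∈ Finset.range k, conjVal q χ hxy (g * x ^ t) := by
  induction k generalizing g with
  | zero =>
    unfold conjVal
    rw [Finset.sum_range_zero]
    have : (⟨g * ⁅x ^ 0, y⁆ * g⁻¹, by rw [MonoidHom.mem_ker, map_mul, map_mul, hk, mul_one,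
      map_inv, mul_inv_cancel]⟩ : q.ker) = 1 := by
      apply Subtype.ext
      show g * ⁅x ^ 0, y⁆ * g⁻¹ = 1
      rw [commutatorElement_def]; group
    rw [this, map_one]
    rfl
  | succ k ih =>
    have hk' : q ⁅x ^ k, y⁆ = 1 := by
      rw [map_commutatorElement, commutatorElement_def, mul_comm (q _) (q _), mul_assoc (q _),
        mul_inv_cancel, mul_one, mul_inv_cancel]
    have h1 : conjVal q χ hk g = conjVal q χ hk' (g * x) + conjVal q χ hxy g := by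
      unfold conjVal
      rw [← toAdd_mul, ← map_mul]
      congr 2
      apply Subtype.ext
      show g * ⁅x ^ (k + 1), y⁆ * g⁻¹ = (g * x) * ⁅x ^ k, y⁆ * (g * x)⁻¹ * (g * ⁅x, y⁆ * g⁻¹)
      simp only [commutatorElement_def, pow_succ]
      group
    rw [h1, ih (g * x) hk', Finset.sum_range_succ']
    congr 1
    · refine Finset.sum_congr rfl fun t _ => ?_
      congr 1
      rw [pow_succ', mul_assoc]
    · congr 1
      simp

lemma line_sum {x y : Γ} (hxy : q ⁅x, y⁆ = 1) (hy : q y = 1) (hx : q (x ^ p) = 1) (g : Γ) :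
    ∑ t ∈ Finset.range p, conjVal q χ hxy (g * x ^ t) = 0 := by
  have hk : q ⁅x ^ p, y⁆ = 1 := by
    rw [map_commutatorElement, hx, hy]
    simp
  rw [← conjVal_pow q χ hxy g p hk]
  unfold conjVal
  have hx' : g * x ^ p * g⁻¹ ∈ q.ker := by
    rw [MonoidHom.mem_ker, map_mul, map_mul, hx, mul_one, map_inv, mul_inv_cancel]
  have hy' : g * y * g⁻¹ ∈ q.ker := by
    rw [MonoidHom.mem_ker, map_mul, map_mul, hy, mul_one, map_inv, mul_inv_cancel]
  have h1 : (⟨g * ⁅x ^ p, y⁆ * g⁻¹, by rw [MonoidHom.mem_ker, map_mul, map_mul, hk, mul_one,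
      map_inv, mul_inv_cancel]⟩ : q.ker) =
      ⟨g * x ^ p * g⁻¹, hx'⟩ * ⟨g * y * g⁻¹, hy'⟩ * ⟨g * x ^ p * g⁻¹, hx'⟩⁻¹ *
        ⟨g * y * g⁻¹, hy'⟩⁻¹ := by
    apply Subtype.ext
    show g * ⁅x ^ p, y⁆ * g⁻¹ = g * x ^ p * g⁻¹ * (g * y * g⁻¹) * (g * x ^ p * g⁻¹)⁻¹ *
      (g * y * g⁻¹)⁻¹
    simp only [commutatorElement_def]
    group
  rw [h1]
  have h2 : ∀ a b : Multiplicative M, a * b * a⁻¹ * b⁻¹ = 1 := by
    intro a b
    rw [mul_comm a b, mul_assoc b, mul_inv_cancel, mul_one, mul_inv_cancel]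
  have h3 : χ (⟨g * x ^ p * g⁻¹, hx'⟩ * ⟨g * y * g⁻¹, hy'⟩ * ⟨g * x ^ p * g⁻¹, hx'⟩⁻¹ *
        ⟨g * y * g⁻¹, hy'⟩⁻¹) = 1 := by
    rw [map_mul, map_mul, map_mul, map_inv, map_inv]
    exact h2 _ _
  rw [h3]
  rfl

theorem key {z : Γ} (hz : q z = 1) {x₁ y₁ x₂ y₂ x₃ y₃ : Γ}
    (e1 : ⁅x₁, y₁⁆ = z) (e2 : ⁅x₂, y₂⁆ = z) (e3 : ⁅x₃, y₃⁆ = z)
    (hx1 : q x₁ = Multiplicative.ofAdd (1, 0)) (hx2 : q x₂ = Multiplicative.ofAdd (0, 1))
    (hx3 : q x₃ = Multiplicative.ofAdd (1, 1))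
    (hy1 : q y₁ = 1) (hy2 : q y₂ = 1) (hy3 : q y₃ = 1) :
    p • ∑ j ∈ Finset.range p, ∑ i ∈ Finset.range j, conjVal q χ hz (x₁ ^ i * x₂ ^ j) = 0 := by
  -- the function on the plane
  let ψ : ZMod p × ZMod p → M := fun v => conjVal q χ hz (Function.invFun q (Multiplicative.ofAdd v))
  have hsurj : Function.Surjective q := by
    intro v
    refine ⟨x₁ ^ (v.toAdd.1.cast : ℤ) * x₂ ^ (v.toAdd.2.cast : ℤ), ?_⟩
    rw [map_mul, map_zpow, map_zpow, hx1, hx2]
    apply Multiplicative.toAdd.injective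
    ext <;> simp
  have hψ : ∀ g, conjVal q χ hz g = ψ (Multiplicative.toAdd (q g)) := by
    intro g
    exact (conjVal_eq q χ hz (Function.rightInverse_invFun hsurj (q g))).symm
  have line : ∀ (x y : Γ) (v : ZMod p × ZMod p), ⁅x, y⁆ = z → q x = Multiplicative.ofAdd v → q y = 1 →
      ∀ w, ∑ t ∈ Finset.range p, ψ (w + (t : ℕ) • v) = 0 := by
    intro x y v hxy hx hy w
    subst hxy
    obtain ⟨g, hg⟩ := hsurj (Multiplicative.ofAdd w)
    have hxp : q (x ^ p) = 1 := by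
      rw [map_pow, hx]
      apply Multiplicative.toAdd.injective
      ext <;> simp
    rw [← line_sum q χ hz hy hxp g]
    refine Finset.sum_congr rfl fun t _ => ?_
    rw [hψ, map_mul, map_pow, hg, hx]
    rfl
  have h := smul_tri ψ
    (fun w => by
      rw [← line x₁ y₁ (1, 0) e1 hx1 hy1 w]
      refine Finset.sum_congr rfl fun t _ => ?_
      congr 2
      ext <;> simp)
    (fun w => by
      rw [← line x₂ y₂ (0, 1) e2 hx2 hy2 w]
      refine Finset.sum_congr rfl fun t _ => ?_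
      congr 2
      ext <;> simp)
    (fun w => by
      rw [← line x₃ y₃ (1, 1) e3 hx3 hy3 w]
      refine Finset.sum_congr rfl fun t _ => ?_
      congr 2
      ext <;> simp) 0
  rw [← h]
  unfold tri
  congr 1
  refine Finset.sum_congr rfl fun j _ => Finset.sum_congr rfl fun i _ => ?_
  rw [hψ, map_mul, map_pow, map_pow, hx1, hx2, zero_add]
  congr 1
  ext <;> simp

end key

end

end Pool.Agent.Helper93.Cyc
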