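import Mathlib
import Pool.Agent.Helper93.Cyc.Step2

/-! The finite quotient and the conclusion. -/

open scoped commutatorElement

namespace Pool.Agent.Helper93.Cyc

noncomputable section

/-- functions on the plane, extended by the plane -/
@[ext] structure Wr (p : ℕ) where
  /-- function part -/
  n : ZMod p × ZMod p → ZMod (p ^ 1)
  /-- plane part -/
  v : ZMod p × ZMod p

namespace Wr

variable {p : ℕ}

instance : Mul (Wr p) := ⟨fun a b => ⟨fun r => a.n r + b.n (r + a.v), a.v + b.v⟩⟩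
instance : One (Wr p) := ⟨⟨fun _ => 0, 0⟩⟩
instance : Inv (Wr p) := ⟨fun a => ⟨fun r => - a.n (r - a.v), - a.v⟩⟩

lemma mul_n (a b : Wr p) (r : ZMod p × ZMod p) : (a * b).n r = a.n r + b.n (r + a.v) := rfl
lemma mul_v (a b : Wr p) : (a * b).v = a.v + b.v := rfl
lemma one_n (r : ZMod p × ZMod p) : (1 : Wr p).n r = 0 := rfl
lemma one_v : (1 : Wr p).v = 0 := rfl
lemma inv_n (a : Wr p) (r : ZMod p × ZMod p) : (a⁻¹).n r = - a.n (r - a.v) := rfl
lemma inv_v (a : Wr p) : (a⁻¹).v = - a.v := rfl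

instance : Group (Wr p) := Group.ofLeftAxioms
  (fun a b c => by
    ext1
    · funext r
      simp only [mul_n, mul_v, add_assoc]
    · simp only [mul_v, add_assoc])
  (fun a => by
    ext1
    · funext r
      simp only [mul_n, one_n, one_v, add_zero, zero_add]
    · simp only [mul_v, one_v, zero_add])
  (fun a => by
    ext1
    · funext r
      simp only [mul_n, inv_n, inv_v, one_n, ← sub_eq_add_neg, neg_add_cancel]
    · simp only [mul_v, inv_v, one_v, neg_add_cancel])

/-- the plane part -/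
def vHom (p : ℕ) : Wr p →* Multiplicative (ZMod p × ZMod p) where
  toFun a := Multiplicative.ofAdd a.v
  map_one' := rfl
  map_mul' _ _ := rfl

lemma card (hp : p.Prime) : ∃ k, Nat.card (Wr p) = p ^ k := by
  have e : Wr p ≃ (ZMod p × ZMod p → ZMod (p ^ 1)) × (ZMod p × ZMod p) :=
    { toFun := fun a => (a.n, a.v)
      invFun := fun a => ⟨a.1, a.2⟩
      left_inv := fun _ => rfl
      right_inv := fun _ => rfl }
  have : NeZero p := ⟨hp.ne_zero⟩
  refine ⟨1 * (p * p) + 2, ?_⟩
  rw [Nat.card_congr e, Nat.card_prod, Nat.card_prod, Nat.card_zmod, Nat.card_fun, Nat.card_prod,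
    Nat.card_zmod, Nat.card_zmod, ← pow_mul, pow_add, pow_two]

/-- pure translation -/
def tr (v : ZMod p × ZMod p) : Wr p := ⟨fun _ => 0, v⟩

/-- pure function -/
def fn (n : ZMod p × ZMod p → ZMod (p ^ 1)) : Wr p := ⟨n, 0⟩

lemma comm_tr_fn (v : ZMod p × ZMod p) (n : ZMod p × ZMod p → ZMod (p ^ 1)) :
    ⁅tr v, fn n⁆ = fn fun r => n (r + v) - n r := by
  rw [commutatorElement_def]
  ext1
  · funext r
    simp only [mul_n, inv_n, mul_v, inv_v, tr, fn, sub_zero, add_zero, neg_zero, zero_add]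
    rw [add_neg_cancel, add_zero, sub_eq_add_neg]
  · simp only [mul_v, inv_v, tr, fn, add_zero, neg_zero, add_neg_cancel]

lemma conj_fn (a : Wr p) (n : ZMod p × ZMod p → ZMod (p ^ 1)) :
    a * fn n * a⁻¹ = fn fun r => n (r + a.v) := by
  ext1
  · funext r
    simp only [mul_n, inv_n, mul_v, fn, add_zero, add_sub_cancel_right]
    ring
  · simp only [mul_v, inv_v, fn, add_zero, add_neg_cancel]

end Wr

variable {p d : ℕ}

/-- indicator of `1` -/
def FF (p : ℕ) (j : ZMod p) : ZMod (p ^ 1) := if j = 1 then 1 else 0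

/-- its difference -/
def ff (p : ℕ) (j : ZMod p) : ZMod (p ^ 1) := FF p (j + 1) - FF p j

/-- the ring isomorphism -/
def ee (p : ℕ) : ZMod p →+* ZMod (p ^ 1) := ZMod.castHom (by rw [pow_one]) _

/-- images of `x_i` -/
def Phix (p d : ℕ) (i : Fin d) : ZMod p × ZMod p :=
  if i.val = 0 then (1, 0) else if i.val = 1 then (0, 1) else (1, 1)

/-- images of `y_i` -/
def Phiy (p d : ℕ) (i : Fin d) : ZMod p × ZMod p → ZMod (p ^ 1) :=
  if i.val = 0 then fun r => ee p r.1 * ff p r.2 else fun r => FF p r.2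

lemma Phi_comm (i : Fin d) (r : ZMod p × ZMod p) :
    Phiy p d i (r + Phix p d i) - Phiy p d i r = ff p r.2 := by
  unfold Phiy Phix
  split_ifs with h h' <;> simp [ff] <;> ring

/-- the homomorphism from the free group -/
def Phi (p d : ℕ) : FreeGroup (Fin d ⊕ Fin d) →* Wr p :=
  FreeGroup.lift (Sum.elim (fun i => Wr.tr (Phix p d i)) fun i => Wr.fn (Phiy p d i))

lemma Phi_rel (i : Fin d) :
    ⁅Phi p d (FreeGroup.of (Sum.inl i)), Phi p d (FreeGroup.of (Sum.inr i))⁆ =
      Wr.fn fun r => ff p r.2 := by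
  unfold Phi
  rw [FreeGroup.lift_apply_of, FreeGroup.lift_apply_of]
  show ⁅Wr.tr (Phix p d i), Wr.fn (Phiy p d i)⁆ = _
  rw [Wr.comm_tr_fn]
  congr 1
  funext r
  exact Phi_comm i r

lemma red_p_mul [Fact p.Prime] {B : ZMod (p ^ 2)} (h : (p : ZMod (p ^ 2)) * B = 0) :
    red p (n := 2) one_le_two B = 0 := by
  by_contra hne
  have h1 := isUnit_of_red (n := 2) one_le_two hne
  have h2 : (p : ZMod (p ^ 2)) = 0 := h1.mul_left_eq_zero.1 h
  rw [ZMod.natCast_eq_zero_iff] at h2
  have hp : p.Prime := Fact.out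
  have h3 := Nat.le_of_dvd hp.pos h2
  have h4 := hp.two_le
  nlinarith

lemma sum_ff (hp : p.Prime) :
    ∑ j ∈ Finset.range p, ∑ _i ∈ Finset.range j, ff p (j : ZMod p) = -1 := by
  have h2 := hp.two_le
  have h1 : ∀ j ∈ Finset.range p, ∑ _i ∈ Finset.range j, ff p (j : ZMod p) =
      if j = 1 then -1 else 0 := by
    intro j hj
    rw [Finset.mem_range] at hj
    rw [Finset.sum_const, Finset.card_range]
    unfold ff FF
    rcases Nat.lt_or_ge j 2 with h | h
    · have : Fact p.Prime := ⟨hp⟩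
      interval_cases j
      · simp
      · simp
    · have hj1 : ¬ j = 1 := by omega
      have e1 : ¬ ((j : ZMod p) + 1 = 1) := by
        intro h3
        have h4 : (j : ZMod p) = 0 := by simpa using h3
        rw [ZMod.natCast_eq_zero_iff] at h4
        exact absurd (Nat.le_of_dvd (by omega) h4) (by omega)
      have e2 : ¬ ((j : ZMod p) = 1) := by
        intro h3
        have h4 : ((j : ℕ) : ZMod p) = ((1 : ℕ) : ZMod p) := by simpa using h3
        rw [ZMod.natCast_eq_natCast_iff'] at h4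
        rw [Nat.mod_eq_of_lt hj, Nat.mod_eq_of_lt (by omega)] at h4
        exact hj1 h4
      simp [hj1, e1, e2]
  rw [Finset.sum_congr rfl h1, Finset.sum_ite_eq' (Finset.range p) 1, if_pos]
  rw [Finset.mem_range]
  omega

theorem main (p : ℕ) [Fact p.Prime] (d : ℕ) (hd : 3 ≤ d) : ¬ IsOneCyclotomic p (ChainGroup p d) := by
  rintro ⟨θ, hθ, hc⟩
  have hp : p.Prime := Fact.out
  have hgen := theta_generator (by omega) hθ hc
  have hθι : ∀ g, θ (iota p d g) = 1 := by
    have : θ.comp (iota p d) = 1 := by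
      ext s
      simp [hgen s]
    exact fun g => DFunLike.congr_fun this g
  obtain ⟨F, hF, hFf⟩ := exists_lift_chain (d := d) hp (Wr.card hp) (Phi p d) _ Phi_rel
  -- the open subgroup
  let U : Subgroup (ChainGroup p d) := ((Wr.vHom p).comp F).ker
  have hU : IsOpen (U : Set (ChainGroup p d)) := hF (Wr.vHom p ⁻¹' {1})
  have hUv : ∀ u : U, (F u.1).v = 0 := fun u => u.2
  have hθ1 : ∀ g, thetaMod θ 1 g = 1 := thetaMod_one hθ
  let c : Z1 (resTheta θ U) 1 :=
    ⟨fun u => (F u.1).n 0, (hF.comp_continuous continuous_subtype_val).comp (fun a : Wr p => a.n 0), by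
      intro g h
      have h1 : thetaMod (resTheta θ U) 1 g = 1 := hθ1 g.1
      rw [h1, one_mul]
      show (F (g.1 * h.1)).n 0 = _
      rw [map_mul, Wr.mul_n, hUv g, add_zero]⟩
  obtain ⟨C, hC⟩ := exists_lift_cocycle (resTheta θ U) (fun g => hθ1 g.1) one_le_two
    (hc U hU 2 one_le_two) c
  -- restrict to the dense subgroup
  let Γ := (iota p d).range
  let q : Γ →* Multiplicative (ZMod p × ZMod p) := ((Wr.vHom p).comp F).comp Γ.subtype
  have hθΓ : ∀ g : Γ, θ g.1 = 1 := by
    rintro ⟨_, g, rfl⟩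
    exact hθι g
  let χ : q.ker →* Multiplicative (ZMod (p ^ 2)) :=
    { toFun := fun u => Multiplicative.ofAdd (C.1 ⟨u.1.1, u.2⟩)
      map_one' := by
        have h1 := C.2.2 1 1
        have h2 : thetaMod (resTheta θ U) 2 1 = 1 := by simp [thetaMod]
        rw [h2, one_mul] at h1
        have h3 : C.1 1 = 0 := by simpa using h1
        exact h3
      map_mul' := by
        intro u v
        have h1 := C.2.2 ⟨u.1.1, u.2⟩ ⟨v.1.1, v.2⟩
        have h2 : thetaMod (resTheta θ U) 2 ⟨u.1.1, u.2⟩ = 1 := by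
          show PadicInt.toZModPow 2 ((θ u.1.1 : ℤ_[p]ˣ) : ℤ_[p]) = 1
          rw [hθΓ]
          simp
        rw [h2, one_mul] at h1
        exact h1 }
  let gx : Fin d → Γ := fun i => ⟨iota p d (FreeGroup.of (Sum.inl i)), _, rfl⟩
  let gy : Fin d → Γ := fun i => ⟨iota p d (FreeGroup.of (Sum.inr i)), _, rfl⟩
  have hqx : ∀ i, q (gx i) = Multiplicative.ofAdd (Phix p d i) := by
    intro i
    show Wr.vHom p (F (iota p d _)) = _
    rw [hFf]
    unfold Phi
    rw [FreeGroup.lift_apply_of]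
    rfl
  have hqy : ∀ i, q (gy i) = 1 := by
    intro i
    show Wr.vHom p (F (iota p d _)) = _
    rw [hFf]
    unfold Phi
    rw [FreeGroup.lift_apply_of]
    rfl
  have hrel : ∀ i, ⁅gx i, gy i⁆ = ⁅gx ⟨0, by omega⟩, gy ⟨0, by omega⟩⁆ := by
    intro i
    apply Subtype.ext
    exact iota_rel' (by omega) i
  have hz : q ⁅gx ⟨0, by omega⟩, gy ⟨0, by omega⟩⁆ = 1 := by
    rw [map_commutatorElement, hqy]
    simp
  have hkey := key q χ hz (hrel ⟨0, by omega⟩) (hrel ⟨1, by omega⟩) (hrel ⟨2, by omega⟩)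
    (hqx _) (hqx _) (hqx _) (hqy _) (hqy _) (hqy _)
  rw [nsmul_eq_mul] at hkey
  have hred := red_p_mul hkey
  rw [map_sum] at hred
  have hval : ∀ i j : ℕ, red p (n := 2) one_le_two
      (conjVal q χ hz (gx ⟨0, by omega⟩ ^ i * gx ⟨1, by omega⟩ ^ j)) = ff p (j : ZMod p) := by
    intro i j
    set g : Γ := gx ⟨0, by omega⟩ ^ i * gx ⟨1, by omega⟩ ^ j with hg
    have hqg : q g = Multiplicative.ofAdd ((i : ZMod p), (j : ZMod p)) := by
      rw [hg, map_mul, map_pow, map_pow, hqx, hqx]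
      apply Multiplicative.toAdd.injective
      ext <;> simp [Phix]
    have h1 : red p (n := 2) one_le_two (conjVal q χ hz g) =
        (F (g.1 * (⁅gx ⟨0, by omega⟩, gy ⟨0, by omega⟩⁆ : Γ).1 * (g.1)⁻¹)).n 0 := hC _
    have h2 : F ((⁅gx ⟨0, by omega⟩, gy ⟨0, by omega⟩⁆ : Γ).1) = Wr.fn fun r => ff p r.2 := by
      show F (⁅iota p d _, iota p d _⁆) = _
      rw [map_commutatorElement, hFf, hFf, Phi_rel]
    rw [h1, map_mul, map_mul, map_inv, h2, Wr.conj_fn]
    have h3 : (F g.1).v = ((i : ZMod p), (j : ZMod p)) := hqg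
    show ff p (0 + (F g.1).v).2 = _
    rw [h3]
    simp
  simp only [map_sum, hval] at hred
  rw [sum_ff hp] at hred
  have : Fact (Nat.Prime (p ^ 1)) := by rw [pow_one]; infer_instance
  exact one_ne_zero (neg_eq_zero.1 hred)

end

end Pool.Agent.Helper93.Cyc
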